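import Pool.Agent.Work.MP_db9079_lc.RMain

namespace Pool.Agent.Results.MP_db9079_lc.AdditiveRV

open FirstOrder Pool.Agent.Work.MP_db9079_lc

/-- The complete theory of the Laurent series field over `ZMod p` in the language with `1`,
addition, subtraction, Frobenius, multiplication by automatic power series and the relations
`x y - z ∈ t ^ n x y O` is decidable. -/
theorem result (p : ℕ) [Fact p.Prime] : ∃ Q : ℕ → Prop, ComputablePred Q ∧
    ∀ σ : Lang.Sentence, Q (Encodable.encode (Language.BoundedFormula.listEncode σ)) ↔
      Language.Sentence.Realize (LaurentSeries (ZMod p)) σ :=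
  reduct_decidable p

end Pool.Agent.Results.MP_db9079_lc.AdditiveRV
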