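import Pool.Agent.Work.MP_db9079_lc.Main

namespace Pool.Agent.Results.MP_db9079_lc.IsolatedPoints

open FirstOrder

universe u v

/-- Let the Laurent series field over `ZMod p` carry a structure for a language in which addition,
multiplication and the valuation ring are definable without parameters. If some definable family
of sets has an unbounded number of isolated points, then the complete theory is undecidable. -/
theorem result (p : ℕ) [Fact p.Prime] (L : FirstOrder.Language.{u, v})
    [Encodable (Σ i, L.Functions i)] [Encodable (Σ i, L.Relations i)]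
    [L.Structure (LaurentSeries (ZMod p))]
    (hadd : (∅ : Set (LaurentSeries (ZMod p))).Definable L
      {w : Fin 3 → LaurentSeries (ZMod p) | w 0 + w 1 = w 2})
    (hmul : (∅ : Set (LaurentSeries (ZMod p))).Definable L
      {w : Fin 3 → LaurentSeries (ZMod p) | w 0 * w 1 = w 2})
    (hval : (∅ : Set (LaurentSeries (ZMod p))).Definable L
      {w : Fin 1 → LaurentSeries (ZMod p) | ∀ j : ℤ, j < 0 → (w 0).coeff j = 0})
    (m n : ℕ) (φ : L.Formula (Fin m ⊕ Fin n))
    (hunb : ∀ N : ℕ, ∃ b : Fin m → LaurentSeries (ZMod p), (N : ℕ∞) <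
      Set.encard {x : Fin n → LaurentSeries (ZMod p) | φ.Realize (Sum.elim b x) ∧
        ∃ S : ℤ, ∀ y : Fin n → LaurentSeries (ZMod p), φ.Realize (Sum.elim b y) →
          (∀ (i : Fin n) (j : ℤ), j < S → (y i).coeff j = (x i).coeff j) → y = x}) :
    ¬ ∃ Q : ℕ → Prop, ComputablePred Q ∧ ∀ σ : L.Sentence,
      Q (Encodable.encode (Language.BoundedFormula.listEncode σ)) ↔
        Language.Sentence.Realize (LaurentSeries (ZMod p)) σ := by
  rintro ⟨Q, hQ, hT⟩
  obtain ⟨N, hN⟩ := Pool.Agent.Work.MP_db9079_lc.main L ⟨hadd, hmul, hval⟩ hQ hT φ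
  obtain ⟨b, hb⟩ := hunb N
  exact absurd (hN b) (not_le.mpr hb)

end Pool.Agent.Results.MP_db9079_lc.IsolatedPoints
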