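import Pool.Agent.Work.MP_db9079_lc.PH.Main

namespace Pool.Agent.Results.MP_db9079_lc.PerfectHull

open FirstOrder Pool.Agent.PH

/-- The complete theory of the perfect closure of the Laurent series field over `ZMod p`, in the
language of rings with a predicate for the valuation ring and a constant for `t`, is decidable. -/
theorem result (p : ℕ) [Fact p.Prime] : ∃ Q : ℕ → Prop, ComputablePred Q ∧
    ∀ σ : Lang.Sentence, Q (Encodable.encode (Language.BoundedFormula.listEncode σ)) ↔
      Language.Sentence.Realize (PerfectClosure (LaurentSeries (ZMod p)) p) σ :=
  ph_decidable p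

end Pool.Agent.Results.MP_db9079_lc.PerfectHull
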