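import Pool.Agent.Work.MP_db9079_lc.PA.Main

namespace Pool.Agent.Results.MP_db9079_lc.PerfectHullAlgClosed

open FirstOrder Pool.Agent.PH Pool.Agent.PA

/-- One computable predicate decides, for every algebraically closed field `κ` of characteristic
`p`, the complete theory of the perfect closure of the Laurent series field over `κ`, in the
language of rings with a predicate for the valuation ring and a constant for `t`. -/
theorem result (p : ℕ) [Fact p.Prime] : ∃ Q : ℕ → Prop, ComputablePred Q ∧
    ∀ (κ : Type) [Field κ] [IsAlgClosed κ] [CharP κ p] (σ : Lang.Sentence),
      Q (Encodable.encode (Language.BoundedFormula.listEncode σ)) ↔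
        Language.Sentence.Realize (PerfectClosure (LaurentSeries κ) p) σ :=
  pa_decidable p

end Pool.Agent.Results.MP_db9079_lc.PerfectHullAlgClosed
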